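import Mathlib

/-!
# Adding random reals destroys the strong polarized relation at the dominating number

Part 1 sets up the forcing relation over an arbitrary preordered set of conditions.
A sentence of the forcing language is represented by the set of the conditions which force it.
Negation, conjunction and universal quantification are the primitive connectives, with their
usual forcing clauses; the other connectives are defined from them classically.
A name for a subset of a ground model set `X` is a map sending `x : X` to the set of the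
conditions attached to `x`.
-/

namespace Pool.Agent.Results.MP_95a70f_lc.RandomReals

open MeasureTheory Cardinal

universe u v w

/-! ## Part 1: forcing -/

section Forcing

variable {P : Type u} [Preorder P]

/-- `p` forces `not φ` iff no `q ≤ p` forces `φ`. -/
def fnot (φ : Set P) : Set P := {p | ∀ q ≤ p, q ∉ φ}

/-- `p` forces `φ and ψ` iff it forces both. -/
def fand (φ ψ : Set P) : Set P := {p | p ∈ φ ∧ p ∈ ψ}

/-- `p` forces `for all i, φ i` iff it forces every `φ i`. -/
def fall {ι : Sort v} (φ : ι → Set P) : Set P := {p | ∀ i, p ∈ φ i}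

/-- `φ or ψ` is `not (not φ and not ψ)`. -/
def for' (φ ψ : Set P) : Set P := fnot (fand (fnot φ) (fnot ψ))

/-- `φ implies ψ` is `not (φ and not ψ)`. -/
def fimp (φ ψ : Set P) : Set P := fnot (fand φ (fnot ψ))

/-- `there is i with φ i` is `not for all i, not φ i`. -/
def fex {ι : Sort v} (φ : ι → Set P) : Set P := fnot (fall fun i => fnot (φ i))

/-- An absolute statement about ground model objects. -/
def fground (h : Prop) : Set P := {_p | h}

/-- `p` forces that the generic filter meets the set `N` of conditions: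
the set of `r` lying below some member of `N` is dense below `p`. -/
def meets (N : Set P) : Set P := {p | ∀ q ≤ p, ∃ r ≤ q, ∃ s ∈ N, r ≤ s}

/-- The relation named by `R` is a function from `X` to `Y`. -/
def IsFun {X : Type v} {Y : Type w} (R : X → Y → Set P) : Set P :=
  fand (fall fun x => fex fun y => meets (R x y))
    (fall fun x => fall fun y => fall fun y' =>
      fimp (fand (meets (R x y)) (meets (R x y'))) (fground (y = y')))

/-- The relation named by `R` is injective. -/
def IsInj {X : Type v} {Y : Type w} (R : X → Y → Set P) : Set P :=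
  fall fun x => fall fun x' => fall fun y =>
    fimp (fand (meets (R x y)) (meets (R x' y))) (fground (x = x'))

/-- The subset of `X` named by `A` has the same cardinality as `X`:
some injective function from `X` to `X` takes all its values in `A`. -/
def HasFullSize {X : Type v} (A : X → Set P) : Set P :=
  fex fun R : X → X → Set P =>
    fand (IsFun R) (fand (IsInj R)
      (fall fun x => fall fun y => fimp (meets (R x y)) (meets (A y))))

/-- The strong polarized relation (for all `c : X × Y → 2` there are `A ⊆ X` and `B ⊆ Y`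
with `|A| = |X|`, `|B| = |Y|` and `c` constant on `A × B`) in the generic extension.
The colouring is given by the set `{(x, y) : c (x, y) = 1}`. -/
def Polarized (P : Type u) [Preorder P] (X : Type v) (Y : Type w) : Set P :=
  fall fun c : X → Y → Set P =>
    fex fun A : X → Set P => fex fun B : Y → Set P =>
      fand (HasFullSize A) (fand (HasFullSize B)
        (for'
          (fall fun x => fall fun y => fimp (fand (meets (A x)) (meets (B y))) (meets (c x y)))
          (fall fun x => fall fun y =>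
            fimp (fand (meets (A x)) (meets (B y))) (fnot (meets (c x y))))))

/-- `f n ≤ g n` for all but finitely many `n`, for named functions `f, g` from `ℕ` to `ℕ`. -/
def LeStar (F G : ℕ → ℕ → Set P) : Set P :=
  fex fun m : ℕ => fall fun n : ℕ => fall fun _ : m ≤ n => fall fun a : ℕ => fall fun b : ℕ =>
    fimp (fand (meets (F n a)) (meets (G n b))) (fground (a ≤ b))

/-- In the generic extension there is a dominating family indexed by `Y`. -/
def HasDominatingFamily (P : Type u) [Preorder P] (Y : Type v) : Set P :=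
  fex fun D : Y → ℕ → ℕ → Set P =>
    fand (fall fun y => IsFun (D y))
      (fall fun F : ℕ → ℕ → Set P => fimp (IsFun F) (fex fun y => LeStar F (D y)))

/-- In the generic extension the dominating number is `κ`: there is a dominating family
indexed by `κ` and for no smaller cardinal `μ` there is one indexed by `μ`. -/
def DominatingNumberIs (P : Type u) [Preorder P] (κ : Cardinal.{v}) : Set P :=
  fand (HasDominatingFamily P κ.out)
    (fall fun μ : Cardinal.{v} => fall fun _ : μ < κ => fnot (HasDominatingFamily P μ.out))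

end Forcing

/-! ## Part 2: random reals, and the dominating number of the ground model -/

/-- The fair coin measure on `Bool`. -/
noncomputable def coin : Measure Bool := (PMF.uniformOfFintype Bool).toMeasure

/-- The product measure on `2^(Λ × ω)`. -/
noncomputable def productMeasure (Λ : Type u) : Measure (Λ × ℕ → Bool) :=
  Measure.infinitePi fun _ => coin

/-- The forcing for adding `Λ` many random reals: measurable subsets of `2^(Λ × ω)` of
positive measure, ordered by inclusion. -/
def RandomForcing (Λ : Type u) : Type u :=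
  {S : Set (Λ × ℕ → Bool) // MeasurableSet S ∧ productMeasure Λ S ≠ 0}

instance (Λ : Type u) : Preorder (RandomForcing Λ) :=
  Preorder.lift fun S => (S.1 : Set (Λ × ℕ → Bool))

/-- The dominating number. -/
noncomputable def dominatingNumber : Cardinal.{0} :=
  sInf {κ | ∃ D : Set (ℕ → ℕ), #D = κ ∧ ∀ f : ℕ → ℕ, ∃ g ∈ D, ∃ m, ∀ n, m ≤ n → f n ≤ g n}


/-! ## Part 3: general facts about the forcing relation -/

section ForcingLemmas

variable {P : Type u} [Preorder P]

theorem mem_fex {ι : Sort v} {φ : ι → Set P} {p : P} :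
    p ∈ fex φ ↔ ∀ q ≤ p, ∃ r ≤ q, ∃ i, r ∈ φ i := by
  simp only [fex, fnot, fall, Set.mem_setOf_eq, not_forall, not_not]
  constructor
  · intro h q hq
    obtain ⟨i, r, hr, h'⟩ := h q hq
    exact ⟨r, hr, i, h'⟩
  · intro h q hq
    obtain ⟨r, hr, i, h'⟩ := h q hq
    exact ⟨i, r, hr, h'⟩

theorem mem_for {φ ψ : Set P} {p : P} :
    p ∈ for' φ ψ ↔ ∀ q ≤ p, ∃ r ≤ q, r ∈ φ ∨ r ∈ ψ := by
  simp only [for', fnot, fand, Set.mem_setOf_eq, not_and_or, not_forall, not_not]
  constructor
  · intro h q hq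
    rcases h q hq with ⟨r, hr, h'⟩ | ⟨r, hr, h'⟩
    · exact ⟨r, hr, Or.inl h'⟩
    · exact ⟨r, hr, Or.inr h'⟩
  · intro h q hq
    obtain ⟨r, hr, h' | h'⟩ := h q hq
    · exact Or.inl ⟨r, hr, h'⟩
    · exact Or.inr ⟨r, hr, h'⟩

theorem mem_fimp {φ ψ : Set P} {p : P} :
    p ∈ fimp φ ψ ↔ ∀ q ≤ p, q ∈ φ → ∃ r ≤ q, r ∈ ψ := by
  simp only [fimp, fnot, fand, Set.mem_setOf_eq, not_and, not_forall, not_not]
  constructor
  · intro h q hq h'
    obtain ⟨r, hr, h''⟩ := h q hq h'
    exact ⟨r, hr, h''⟩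
  · intro h q hq h'
    obtain ⟨r, hr, h''⟩ := h q hq h'
    exact ⟨r, hr, h''⟩

theorem mem_fand {φ ψ : Set P} {p : P} : p ∈ fand φ ψ ↔ p ∈ φ ∧ p ∈ ψ := Iff.rfl

theorem mem_fall {ι : Sort v} {φ : ι → Set P} {p : P} : p ∈ fall φ ↔ ∀ i, p ∈ φ i := Iff.rfl

theorem mem_fground {h : Prop} {p : P} : p ∈ fground (P := P) h ↔ h := Iff.rfl

/-- The statement `φ` is preserved by passing to stronger conditions. -/
def Down (φ : Set P) : Prop := ∀ p ∈ φ, ∀ q ≤ p, q ∈ φ

theorem down_fnot (φ : Set P) : Down (fnot φ) :=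
  fun _ hp _ hq r hr => hp r (hr.trans hq)

theorem down_fand {φ ψ : Set P} (h : Down φ) (h' : Down ψ) : Down (fand φ ψ) :=
  fun _ hp _ hq => ⟨h _ hp.1 _ hq, h' _ hp.2 _ hq⟩

theorem down_fall {ι : Sort v} {φ : ι → Set P} (h : ∀ i, Down (φ i)) : Down (fall φ) :=
  fun _ hp _ hq i => h i _ (hp i) _ hq

theorem down_fex {ι : Sort v} (φ : ι → Set P) : Down (fex φ) := down_fnot _

theorem down_for (φ ψ : Set P) : Down (for' φ ψ) := down_fnot _

theorem down_fimp (φ ψ : Set P) : Down (fimp φ ψ) := down_fnot _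

theorem down_meets (N : Set P) : Down (meets N) :=
  fun _ hp _ hq r hr => hp r (hr.trans hq)

theorem down_IsFun {X : Type v} {Y : Type w} (R : X → Y → Set P) : Down (IsFun R) :=
  down_fand (down_fall fun _ => down_fex _)
    (down_fall fun _ => down_fall fun _ => down_fall fun _ => down_fimp _ _)

theorem down_LeStar (F G : ℕ → ℕ → Set P) : Down (LeStar F G) := down_fex _

theorem mem_fex_of_mem {ι : Sort v} {φ : ι → Set P} {p : P} (i : ι) (hd : Down (φ i))
    (h : p ∈ φ i) : p ∈ fex φ :=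
  mem_fex.2 fun q hq => ⟨q, le_rfl, i, hd _ h _ hq⟩

theorem meets_of_le {N : Set P} {p s : P} (hs : s ∈ N) (h : p ≤ s) : p ∈ meets N :=
  fun q hq => ⟨q, le_rfl, s, hs, hq.trans h⟩

/-- No condition forces both a statement and its negation. -/
theorem notMem_of_mem_fnot {φ : Set P} {p : P} (h : p ∈ fnot φ) : p ∉ φ := h p le_rfl

/-- The statement that the polarized relation holds is decided classically: it is equivalent to
its double negation. -/
theorem fnot_fnot_polarized (X : Type v) (Y : Type w) :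
    fnot (fnot (Polarized P X Y)) = Polarized P X Y := by
  apply Set.Subset.antisymm
  · intro p hp c
    rw [mem_fex]
    intro q hq
    have h := hp q hq
    simp only [fnot, Set.mem_ofPred_eq, not_forall, not_not] at h
    obtain ⟨r, hr, h'⟩ := h
    obtain ⟨s, hs, A, hA⟩ := mem_fex.1 (h' c) r le_rfl
    exact ⟨s, hs.trans hr, A, hA⟩
  · intro p hp q hq h
    exact h q le_rfl (down_fall (fun _ => down_fex _) _ hp _ hq)

end ForcingLemmas

/-! Sanity check: over the one point forcing, which adds nothing, the forcing statement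
`Polarized` is the strong polarized relation of the ground model. -/

theorem punit_fnot {φ : Set PUnit.{u + 1}} : PUnit.unit ∈ fnot φ ↔ PUnit.unit ∉ φ :=
  ⟨fun h => h PUnit.unit le_rfl, fun h _ _ => h⟩

theorem punit_fex {ι : Sort v} {φ : ι → Set PUnit.{u + 1}} :
    PUnit.unit ∈ fex φ ↔ ∃ i, PUnit.unit ∈ φ i := by
  rw [mem_fex]
  constructor
  · intro h
    obtain ⟨_, _, i, h'⟩ := h PUnit.unit le_rfl
    exact ⟨i, h'⟩
  · rintro ⟨i, h⟩ q _
    exact ⟨PUnit.unit, le_rfl, i, h⟩

theorem punit_fimp {φ ψ : Set PUnit.{u + 1}} :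
    PUnit.unit ∈ fimp φ ψ ↔ (PUnit.unit ∈ φ → PUnit.unit ∈ ψ) := by
  rw [mem_fimp]
  constructor
  · intro h h'
    obtain ⟨_, _, h''⟩ := h PUnit.unit le_rfl h'
    exact h''
  · intro h q _ h'
    exact ⟨PUnit.unit, le_rfl, h h'⟩

theorem punit_for {φ ψ : Set PUnit.{u + 1}} :
    PUnit.unit ∈ for' φ ψ ↔ (PUnit.unit ∈ φ ∨ PUnit.unit ∈ ψ) := by
  rw [mem_for]
  constructor
  · intro h
    obtain ⟨_, _, h''⟩ := h PUnit.unit le_rfl
    exact h''
  · intro h q _
    exact ⟨PUnit.unit, le_rfl, h⟩

theorem punit_meets {N : Set PUnit.{u + 1}} : PUnit.unit ∈ meets N ↔ PUnit.unit ∈ N := by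
  constructor
  · intro h
    obtain ⟨_, _, s, hs, _⟩ := h PUnit.unit le_rfl
    exact hs
  · intro h
    exact meets_of_le h le_rfl

theorem punit_hasFullSize {X : Type v} (A : X → Set PUnit.{u + 1}) :
    PUnit.unit ∈ HasFullSize A ↔ #{x | PUnit.unit ∈ A x} = #X := by
  rw [HasFullSize, punit_fex]
  constructor
  · rintro ⟨R, ⟨h1, h2⟩, h3, h4⟩
    have h1' : ∀ x, ∃ y, PUnit.unit ∈ R x y := fun x => by
      obtain ⟨y, hy⟩ := punit_fex.1 (h1 x)
      exact ⟨y, punit_meets.1 hy⟩
    choose f hf using h1'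
    refine le_antisymm (mk_set_le _) ?_
    refine Cardinal.mk_le_of_injective (f := fun x => (⟨f x, ?_⟩ : {x | PUnit.unit ∈ A x})) ?_
    · exact punit_meets.1 (punit_fimp.1 (h4 x (f x)) (punit_meets.2 (hf x)))
    · intro x x' hxx'
      have he : f x = f x' := congrArg Subtype.val hxx'
      have hx' := hf x'
      rw [← he] at hx'
      exact punit_fimp.1 (h3 x x' (f x)) ⟨punit_meets.2 (hf x), punit_meets.2 hx'⟩
  · intro h
    obtain ⟨e⟩ := Cardinal.eq.1 h.symm
    refine ⟨fun x y => {_p | (e x).1 = y}, ⟨fun x => ?_, fun x y y' => ?_⟩,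
      fun x x' y => ?_, fun x y => ?_⟩
    · exact punit_fex.2 ⟨(e x).1, punit_meets.2 rfl⟩
    · rw [punit_fimp]
      rintro ⟨h1, h2⟩
      exact (show (e x).1 = y from punit_meets.1 h1).symm.trans (punit_meets.1 h2)
    · rw [punit_fimp]
      rintro ⟨h1, h2⟩
      have h1' : (e x).1 = y := punit_meets.1 h1
      have h2' : (e x').1 = y := punit_meets.1 h2
      exact e.injective (Subtype.ext (h1'.trans h2'.symm))
    · rw [punit_fimp]
      intro h1
      have h1' : (e x).1 = y := punit_meets.1 h1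
      rw [punit_meets, ← h1']
      exact (e x).2

theorem punit_polarized (X : Type v) (Y : Type w) :
    PUnit.unit ∈ Polarized PUnit.{u + 1} X Y ↔
      ∀ c : X → Y → Bool, ∃ A : Set X, ∃ B : Set Y, #A = #X ∧ #B = #Y ∧
        ∃ i : Bool, ∀ x ∈ A, ∀ y ∈ B, c x y = i := by
  constructor
  · intro h c
    obtain ⟨A, hA⟩ := punit_fex.1 (h fun x y => {_p | c x y = true})
    obtain ⟨B, hAs, hBs, hh⟩ := punit_fex.1 hA
    refine ⟨_, _, (punit_hasFullSize A).1 hAs, (punit_hasFullSize B).1 hBs, ?_⟩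
    rcases punit_for.1 hh with h' | h'
    · refine ⟨true, fun x hx y hy => ?_⟩
      exact punit_meets.1 (punit_fimp.1 (h' x y) ⟨punit_meets.2 hx, punit_meets.2 hy⟩)
    · refine ⟨false, fun x hx y hy => ?_⟩
      have h1 := punit_fnot.1 (punit_fimp.1 (h' x y) ⟨punit_meets.2 hx, punit_meets.2 hy⟩)
      rw [punit_meets] at h1
      exact Bool.eq_false_iff.2 h1
  · classical
    intro h c
    obtain ⟨A, B, hA, hB, i, hi⟩ := h fun x y => decide (PUnit.unit ∈ c x y)
    refine punit_fex.2 ⟨fun x => {_p | x ∈ A}, punit_fex.2 ⟨fun y => {_p | y ∈ B},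
      (punit_hasFullSize _).2 hA, (punit_hasFullSize _).2 hB, punit_for.2 ?_⟩⟩
    cases i with
    | true =>
      left
      intro x y
      rw [punit_fimp]
      rintro ⟨hx, hy⟩
      exact punit_meets.2 (of_decide_eq_true (hi x (punit_meets.1 hx) y (punit_meets.1 hy)))
    | false =>
      right
      intro x y
      rw [punit_fimp]
      rintro ⟨hx, hy⟩
      rw [punit_fnot, punit_meets]
      exact of_decide_eq_false (hi x (punit_meets.1 hx) y (punit_meets.1 hy))

/-! ## Part 4: measure theory -/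

section MeasureLemmas

variable {Ω : Type u} [MeasurableSpace Ω] {μ : Measure Ω}

/-- The essential union of a family of measurable sets. -/
theorem exists_essUnion [IsFiniteMeasure μ] (N : Set (Set Ω)) (hN : ∀ s ∈ N, MeasurableSet s) :
    ∃ M : Set Ω, MeasurableSet M ∧ (∀ s ∈ N, μ (s \ M) = 0) ∧
      ∀ T : Set Ω, (∀ s ∈ N, μ (s \ T) = 0) → μ (M \ T) = 0 := by
  classical
  let F : Set ENNReal := {x | ∃ C : Set (Set Ω), C ⊆ N ∧ C.Countable ∧ x = μ (⋃₀ C)}
  have hne : F.Nonempty := ⟨μ (⋃₀ ∅), ∅, Set.empty_subset _, Set.countable_empty, rfl⟩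
  obtain ⟨x, -, hx, hxF⟩ := exists_seq_tendsto_sSup hne (OrderTop.bddAbove F)
  choose C hCN hCc hCx using hxF
  let D : Set (Set Ω) := ⋃ n, C n
  have hDN : D ⊆ N := Set.iUnion_subset hCN
  have hDc : D.Countable := Set.countable_iUnion hCc
  have hDm : MeasurableSet (⋃₀ D) := MeasurableSet.sUnion hDc fun s hs => hN s (hDN hs)
  have hDsup : sSup F ≤ μ (⋃₀ D) := by
    refine le_of_tendsto' hx fun n => ?_
    rw [hCx n]
    exact measure_mono (Set.sUnion_subset_sUnion (Set.subset_iUnion C n))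
  refine ⟨⋃₀ D, hDm, ?_, ?_⟩
  · intro s hs
    have h1 : μ (⋃₀ (insert s D)) ≤ sSup F :=
      le_sSup ⟨insert s D, Set.insert_subset hs hDN, hDc.insert s, rfl⟩
    have h2 : μ (⋃₀ (insert s D)) = μ (⋃₀ D) + μ (s \ ⋃₀ D) := by
      rw [← measure_union disjoint_sdiff_self_right ((hN s hs).diff hDm)]
      congr 1
      rw [Set.sUnion_insert, Set.union_diff_self, Set.union_comm]
    have h3 : μ (⋃₀ D) + μ (s \ ⋃₀ D) ≤ μ (⋃₀ D) + 0 := by
      rw [← h2, add_zero]; exact h1.trans hDsup
    have h4 := (ENNReal.add_le_add_iff_left (measure_ne_top μ _)).1 h3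
    exact le_antisymm h4 bot_le
  · intro T hT
    rw [Set.sUnion_eq_biUnion]
    have : (⋃ s ∈ D, s) \ T = ⋃ s ∈ D, (s \ T) := by
      ext x; simp only [Set.mem_diff, Set.mem_iUnion]
      constructor
      · rintro ⟨⟨s, hs, hx⟩, hxT⟩; exact ⟨s, hs, hx, hxT⟩
      · rintro ⟨s, hs, hx, hxT⟩; exact ⟨⟨s, hs, hx⟩, hxT⟩
    rw [this]
    exact (measure_biUnion_null_iff hDc).2 fun s hs => hT s (hDN hs)

end MeasureLemmas

/-- A set of points of a product depending measurably only on the coordinates in `C`. -/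
def coordSpace {I : Type u} (C : Set I) : MeasurableSpace (I → Bool) :=
  ⨆ i ∈ C, MeasurableSpace.comap (fun ω : I → Bool => ω i) inferInstance

theorem coordSpace_mono {I : Type u} {C D : Set I} (h : C ⊆ D) : coordSpace C ≤ coordSpace D :=
  biSup_mono h

theorem exists_countable_coordSpace {I : Type u} (S : Set (I → Bool)) (hS : MeasurableSet S) :
    ∃ C : Set I, C.Countable ∧ MeasurableSet[coordSpace C] S := by
  have h : (MeasurableSpace.pi : MeasurableSpace (I → Bool)) =
      ⨆ i, MeasurableSpace.comap (fun ω : I → Bool => ω i) inferInstance := rfl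
  rw [h, MeasurableSpace.measurableSet_iSup] at hS
  induction hS with
  | basic u hu =>
    obtain ⟨i, hi⟩ := hu
    refine ⟨{i}, Set.countable_singleton i, ?_⟩
    have : coordSpace ({i} : Set I) =
        MeasurableSpace.comap (fun ω : I → Bool => ω i) inferInstance := by
      simp [coordSpace]
    rw [this]; exact hi
  | empty => exact ⟨∅, Set.countable_empty, @MeasurableSet.empty _ (coordSpace _)⟩
  | compl t _ ih =>
    obtain ⟨C, hC, h'⟩ := ih
    exact ⟨C, hC, @MeasurableSet.compl _ _ (coordSpace C) h'⟩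
  | iUnion f _ ih =>
    choose C hC h' using ih
    refine ⟨⋃ n, C n, Set.countable_iUnion hC, ?_⟩
    exact @MeasurableSet.iUnion _ _ (coordSpace _) _ _
      fun n => coordSpace_mono (Set.subset_iUnion C n) _ (h' n)

instance : IsProbabilityMeasure coin := by unfold coin; infer_instance

instance (Λ : Type u) : IsProbabilityMeasure (productMeasure Λ) := by
  unfold productMeasure; infer_instance

theorem coin_singleton (b : Bool) : coin {b} = 2⁻¹ := by
  unfold coin
  rw [PMF.toMeasure_apply_singleton _ _ (measurableSet_singleton b)]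
  simp

/-- For a measurable set depending only on coordinates outside `F`, fixing the values of the
coordinates in the finite set `F` multiplies the measure by `2 ^ (- |F|)`. -/
theorem productMeasure_inter {Λ : Type u} {C : Set (Λ × ℕ)} {T : Set (Λ × ℕ → Bool)}
    (hT : MeasurableSet[coordSpace C] T) (F : Finset (Λ × ℕ)) (hF : Disjoint C (F : Set (Λ × ℕ)))
    (b : Bool) :
    productMeasure Λ (T ∩ {ω | ∀ i ∈ F, ω i = b}) = productMeasure Λ T * (2⁻¹) ^ F.card := by
  have hind : ProbabilityTheory.iIndepFun (fun (i : Λ × ℕ) (ω : Λ × ℕ → Bool) => ω i)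
      (productMeasure Λ) :=
    ProbabilityTheory.iIndepFun_infinitePi (X := fun _ => id) (fun _ => measurable_id)
  have h1 : ProbabilityTheory.Indep (coordSpace C) (coordSpace (F : Set (Λ × ℕ)))
      (productMeasure Λ) := by
    refine ProbabilityTheory.indep_iSup_of_disjoint (fun i => ?_) hind hF
    exact (measurable_pi_apply i).comap_le
  have h2 : {ω : Λ × ℕ → Bool | ∀ i ∈ F, ω i = b} = (F : Set (Λ × ℕ)).pi fun _ => {b} := by
    ext ω; simp [Set.pi]
  have h3 : MeasurableSet[coordSpace (F : Set (Λ × ℕ))]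
      {ω : Λ × ℕ → Bool | ∀ i ∈ F, ω i = b} := by
    have : {ω : Λ × ℕ → Bool | ∀ i ∈ F, ω i = b} = ⋂ i ∈ F, {ω | ω i = b} := by
      ext ω; simp
    rw [this]
    refine @Finset.measurableSet_biInter _ _ (coordSpace _) _ F fun i hi => ?_
    have hle : MeasurableSpace.comap (fun ω : Λ × ℕ → Bool => ω i) inferInstance ≤
        coordSpace (F : Set (Λ × ℕ)) :=
      le_iSup₂_of_le i (Finset.mem_coe.2 hi) le_rfl
    refine hle _ ⟨{b}, measurableSet_singleton b, ?_⟩
    ext ω; simp
  rw [(ProbabilityTheory.Indep_iff _ _ _).1 h1 T _ hT h3]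
  congr 1
  rw [h2, productMeasure, Measure.infinitePi_pi]
  · simp [coin_singleton]
  · intro i _; exact measurableSet_singleton b


/-- Almost surely it does not happen that infinitely many of the sets `B n` occur and that
whenever `B n` occurs the coordinate `(l, n)` has the value `b`, when the sets `B n` depend only
on coordinates `(l', n')` with `l' ≠ l`. -/
theorem null_of_infinite {Λ : Type u} {C : Set (Λ × ℕ)} (B : ℕ → Set (Λ × ℕ → Bool))
    (hB : ∀ n, MeasurableSet[coordSpace C] (B n)) (l : Λ) (hl : ∀ n, (l, n) ∉ C) (b : Bool) :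
    productMeasure Λ {ω | (∀ m, ∃ n, m ≤ n ∧ ω ∈ B n) ∧ ∀ n, ω ∈ B n → ω (l, n) = b} = 0 := by
  classical
  set μ := productMeasure Λ with hμ
  set Z : Set (Λ × ℕ → Bool) :=
    {ω | (∀ m, ∃ n, m ≤ n ∧ ω ∈ B n) ∧ ∀ n, ω ∈ B n → ω (l, n) = b} with hZ
  -- the pattern of `ω` up to `N`
  let pat : ℕ → (Λ × ℕ → Bool) → Finset ℕ := fun N ω => (Finset.range N).filter fun n => ω ∈ B n
  have hpatmeas : ∀ N (F : Finset ℕ), MeasurableSet[coordSpace C] {ω | pat N ω = F} := by
    intro N F
    by_cases hFN : F ⊆ Finset.range N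
    · have : {ω | pat N ω = F} =
          ⋂ n ∈ Finset.range N, (if n ∈ F then B n else (B n)ᶜ) := by
        ext ω
        simp only [Set.mem_iInter]
        constructor
        · intro h n hn
          have h' : pat N ω = F := h
          by_cases hnF : n ∈ F
          · simp only [hnF, if_true]
            rw [← h'] at hnF
            exact (Finset.mem_filter.1 hnF).2
          · simp only [hnF, if_false]
            intro hω
            apply hnF
            rw [← h']
            exact Finset.mem_filter.2 ⟨hn, hω⟩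
        · intro h
          show pat N ω = F
          ext n
          constructor
          · intro hn
            obtain ⟨hn1, hn2⟩ := Finset.mem_filter.1 hn
            by_contra hnF
            have := h n hn1
            simp only [hnF, if_false] at this
            exact this hn2
          · intro hn
            have := h n (hFN hn)
            simp only [hn, if_true] at this
            exact Finset.mem_filter.2 ⟨hFN hn, this⟩
      rw [this]
      refine @Finset.measurableSet_biInter _ _ (coordSpace _) _ _ fun n _ => ?_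
      by_cases hnF : n ∈ F
      · simp only [hnF, if_true]; exact hB n
      · simp only [hnF, if_false]; exact @MeasurableSet.compl _ _ (coordSpace C) (hB n)
    · have : {ω | pat N ω = F} = ∅ := by
        ext ω
        simp only [Set.mem_empty_iff_false, iff_false]
        intro h
        have h' : pat N ω = F := h
        exact hFN (h' ▸ Finset.filter_subset _ _)
      rw [this]
      exact @MeasurableSet.empty _ (coordSpace _)
  have hle : coordSpace C ≤ (MeasurableSpace.pi : MeasurableSpace (Λ × ℕ → Bool)) :=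
    iSup₂_le fun i _ => (measurable_pi_apply i).comap_le
  have key : ∀ k N : ℕ, μ {ω | ω ∈ Z ∧ k ≤ (pat N ω).card} ≤ (2⁻¹ : ENNReal) ^ k := by
    intro k N
    let 𝓕 : Finset (Finset ℕ) := (Finset.range N).powerset.filter fun F => k ≤ F.card
    have hsub : {ω | ω ∈ Z ∧ k ≤ (pat N ω).card} ⊆
        ⋃ F ∈ 𝓕, ({ω | pat N ω = F} ∩
          {ω | ∀ i ∈ F.image (fun n => (l, n)), ω i = b}) := by
      rintro ω ⟨hωZ, hωk⟩
      simp only [Set.mem_iUnion]
      refine ⟨pat N ω, ?_, rfl, ?_⟩
      · exact Finset.mem_filter.2 ⟨Finset.mem_powerset.2 (Finset.filter_subset _ _), hωk⟩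
      · intro i hi
        obtain ⟨n, hn, rfl⟩ := Finset.mem_image.1 hi
        exact hωZ.2 n (Finset.mem_filter.1 hn).2
    calc μ {ω | ω ∈ Z ∧ k ≤ (pat N ω).card}
        ≤ μ (⋃ F ∈ 𝓕, ({ω | pat N ω = F} ∩
          {ω | ∀ i ∈ F.image (fun n => (l, n)), ω i = b})) := measure_mono hsub
      _ ≤ ∑ F ∈ 𝓕, μ ({ω | pat N ω = F} ∩
          {ω | ∀ i ∈ F.image (fun n => (l, n)), ω i = b}) := measure_biUnion_finset_le _ _
      _ ≤ ∑ F ∈ 𝓕, μ {ω | pat N ω = F} * (2⁻¹ : ENNReal) ^ k := by
          refine Finset.sum_le_sum fun F hF => ?_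
          have hcard : (F.image (fun n => (l, n))).card = F.card :=
            Finset.card_image_of_injective _ fun a b h => (Prod.mk.inj h).2
          rw [hμ, productMeasure_inter (hpatmeas N F), hcard]
          · exact mul_le_mul_right (pow_le_pow_of_le_one (by positivity)
              (ENNReal.inv_le_one.2 (by norm_num)) (Finset.mem_filter.1 hF).2) _
          · rw [Set.disjoint_right]
            intro i hi
            obtain ⟨n, -, rfl⟩ := Finset.mem_image.1 (Finset.mem_coe.1 hi)
            exact hl n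
      _ = μ (⋃ F ∈ 𝓕, {ω | pat N ω = F}) * (2⁻¹ : ENNReal) ^ k := by
          rw [← Finset.sum_mul, measure_biUnion_finset]
          · intro F _ F' _ hFF'
            refine Set.disjoint_left.2 fun ω h h' => hFF' ?_
            exact (show pat N ω = F from h).symm.trans h'
          · intro F _
            exact hle _ (hpatmeas N F)
      _ ≤ 1 * (2⁻¹ : ENNReal) ^ k := by gcongr; exact prob_le_one
      _ = (2⁻¹ : ENNReal) ^ k := one_mul _
  have hmono : ∀ k, μ Z ≤ (2⁻¹ : ENNReal) ^ k := by
    intro k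
    have hZk : Z = ⋃ N, {ω | ω ∈ Z ∧ k ≤ (pat N ω).card} := by
      ext ω
      simp only [Set.mem_iUnion]
      constructor
      · intro hω
        -- find `N` with at least `k` elements below
        have hinf : {n | ω ∈ B n}.Infinite := by
          rw [Set.infinite_iff_exists_gt]
          intro m
          obtain ⟨n, hn, hωn⟩ := hω.1 (m + 1)
          exact ⟨n, hωn, hn⟩
        obtain ⟨t, htsub, htcard⟩ := hinf.exists_subset_card_eq k
        refine ⟨t.sup id + 1, hω, ?_⟩
        rw [← htcard]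
        refine Finset.card_le_card fun n hn => ?_
        refine Finset.mem_filter.2 ⟨Finset.mem_range.2 ?_, htsub hn⟩
        exact Nat.lt_succ_of_le (Finset.le_sup (f := id) hn)
      · rintro ⟨N, hω, -⟩
        exact hω
    have hmon : Monotone fun N => {ω | ω ∈ Z ∧ k ≤ (pat N ω).card} := by
      intro N N' hNN' ω hω
      refine ⟨hω.1, hω.2.trans (Finset.card_le_card ?_)⟩
      intro n hn
      obtain ⟨h1, h2⟩ := Finset.mem_filter.1 hn
      exact Finset.mem_filter.2 ⟨Finset.mem_range.2 ((Finset.mem_range.1 h1).trans_le hNN'), h2⟩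
    calc μ Z = μ (⋃ N, {ω | ω ∈ Z ∧ k ≤ (pat N ω).card}) := by rw [← hZk]
      _ = ⨆ N, μ {ω | ω ∈ Z ∧ k ≤ (pat N ω).card} := hmon.measure_iUnion
      _ ≤ (2⁻¹ : ENNReal) ^ k := iSup_le fun N => key k N
  have hlim : Filter.Tendsto (fun k : ℕ => (2⁻¹ : ENNReal) ^ k) Filter.atTop (nhds 0) :=
    ENNReal.tendsto_pow_atTop_nhds_zero_of_lt_one (ENNReal.inv_lt_one.2 (by norm_num))
  exact le_antisymm (ge_of_tendsto' hlim hmono) bot_le

/-! ## Part 5: the forcing for adding random reals -/

section Random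

variable {Λ : Type u}

theorem measurableSet_coord (i : Λ × ℕ) (b : Bool) :
    MeasurableSet {ω : Λ × ℕ → Bool | ω i = b} := by
  have : {ω : Λ × ℕ → Bool | ω i = b} = (fun ω => ω i) ⁻¹' {b} := by
    ext ω; simp
  rw [this]
  exact measurable_pi_apply i (measurableSet_singleton b)

/-- Turn a measurable set of positive measure into a condition. -/
def cond (S : Set (Λ × ℕ → Bool)) (hS : MeasurableSet S) (h : productMeasure Λ S ≠ 0) :
    RandomForcing Λ := ⟨S, hS, h⟩

theorem cond_le {S : Set (Λ × ℕ → Bool)} {hS : MeasurableSet S} {h : productMeasure Λ S ≠ 0}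
    {p : RandomForcing Λ} : cond S hS h ≤ p ↔ S ⊆ p.1 := Iff.rfl

theorem rle_iff {p q : RandomForcing Λ} : p ≤ q ↔ p.1 ⊆ q.1 := Iff.rfl

/-- The truth value of `meets N` as a measurable set. -/
theorem exists_truth (N : Set (RandomForcing Λ)) :
    ∃ M : Set (Λ × ℕ → Bool), MeasurableSet M ∧
      ∀ p : RandomForcing Λ, p ∈ meets N ↔ productMeasure Λ (p.1 \ M) = 0 := by
  obtain ⟨M, hM, h1, h2⟩ := exists_essUnion (μ := productMeasure Λ)
    {S | ∃ s ∈ N, S = s.1} (by rintro _ ⟨s, -, rfl⟩; exact s.2.1)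
  refine ⟨M, hM, fun p => ⟨fun hp => ?_, fun hp => ?_⟩⟩
  · by_contra hne
    obtain ⟨r, hr, s, hs, hrs⟩ := hp (cond (p.1 \ M) (p.2.1.diff hM) hne) (cond_le.2 fun x hx => hx.1)
    have hr0 : productMeasure Λ r.1 ≤ productMeasure Λ (s.1 \ M) :=
      measure_mono fun x hx => ⟨hrs hx, (hr hx).2⟩
    exact r.2.2 (le_antisymm (hr0.trans (h1 _ ⟨s, hs, rfl⟩).le) bot_le)
  · intro q hq
    by_contra hcon
    have h3 : ∀ S ∈ {S | ∃ s ∈ N, S = s.1}, productMeasure Λ (S \ q.1ᶜ) = 0 := by
      rintro _ ⟨s, hs, rfl⟩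
      by_contra hne
      have hm : MeasurableSet (s.1 \ q.1ᶜ) := s.2.1.diff q.2.1.compl
      exact hcon ⟨cond _ hm hne, cond_le.2 fun x hx => not_not.1 hx.2, s, hs,
        cond_le.2 fun x hx => hx.1⟩
    have h4 := h2 _ h3
    have h5 : q.1 ⊆ (p.1 \ M) ∪ (M \ q.1ᶜ) := by
      intro x hx
      by_cases hxM : x ∈ M
      · exact Or.inr ⟨hxM, fun h => h hx⟩
      · exact Or.inl ⟨hq hx, hxM⟩
    exact q.2.2 (measure_mono_null h5 (measure_union_null hp h4))

theorem pos_of_diff_null {p : RandomForcing Λ} {M : Set (Λ × ℕ → Bool)}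
    (h : productMeasure Λ (p.1 \ M) = 0) : productMeasure Λ (p.1 ∩ M) ≠ 0 := by
  intro h'
  apply p.2.2
  have : p.1 = (p.1 ∩ M) ∪ (p.1 \ M) := (Set.inter_union_diff _ _).symm
  rw [this]
  exact measure_union_null h' h

/-- Uncountable families of conditions contain two distinct compatible members. -/
theorem exists_compatible {I : Type v} [Uncountable I] (s : I → RandomForcing Λ) :
    ∃ i j, i ≠ j ∧ ∃ r, r ≤ s i ∧ r ≤ s j := by
  by_contra hcon
  push Not at hcon
  have hd : Pairwise (Function.onFun (AEDisjoint (productMeasure Λ)) fun i => (s i).1) := by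
    intro i j hij
    by_contra hne
    exact hcon i j hij (cond _ ((s i).2.1.inter (s j).2.1) hne) (cond_le.2 fun x hx => hx.1)
      (cond_le.2 fun x hx => hx.2)
  have hc := Measure.countable_meas_pos_of_disjoint_iUnion₀ (μ := productMeasure Λ)
    (fun i => (s i).2.1.nullMeasurableSet) hd
  have : {i | 0 < productMeasure Λ (s i).1} = Set.univ := by
    ext i; simp only [Set.mem_univ, iff_true]; exact pos_iff_ne_zero.2 (s i).2.2
  rw [this] at hc
  exact not_countable (α := I) (Set.countable_univ_iff.1 hc)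

/-- A set of full size is not contained in a countable set of the ground model. -/
theorem exists_mem_not_countable {X : Type v} [Uncountable X] {A : X → Set (RandomForcing Λ)}
    {p : RandomForcing Λ} (hp : p ∈ HasFullSize A) (Z : Set X) (hZ : Z.Countable) :
    ∃ r ≤ p, ∃ x, x ∉ Z ∧ r ∈ meets (A x) := by
  obtain ⟨q, hq, R, hR1, hR2, hR3⟩ := mem_fex.1 hp p le_rfl
  have h1 : ∀ x, ∃ y, ∃ r ≤ q, r ∈ meets (R x y) ∧ r ∈ meets (A y) := by
    intro x
    obtain ⟨r, hr, y, hy⟩ := mem_fex.1 (hR1.1 x) q le_rfl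
    obtain ⟨r', hr', h'⟩ := mem_fimp.1 (hR3 x y) r hr hy
    exact ⟨y, r', hr'.trans hr, down_meets _ _ hy _ hr', h'⟩
  choose f g hg hgR hgA using h1
  by_cases hf : ∃ x, f x ∉ Z
  · obtain ⟨x, hx⟩ := hf
    exact ⟨g x, (hg x).trans hq, f x, hx, hgA x⟩
  · exfalso
    push Not at hf
    -- an uncountable fibre
    have hfib : ∃ z ∈ Z, ¬ (f ⁻¹' {z}).Countable := by
      by_contra hcon
      push Not at hcon
      have : (Set.univ : Set X) = ⋃ z ∈ Z, f ⁻¹' {z} := by
        ext x; simp [hf x]
      have hc : (Set.univ : Set X).Countable := by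
        rw [this]; exact hZ.biUnion hcon
      exact not_countable (α := X) (Set.countable_univ_iff.1 hc)
    obtain ⟨z, -, hz⟩ := hfib
    have : Uncountable (f ⁻¹' {z}) := by
      rw [← not_countable_iff]; exact fun h => hz (Set.countable_coe_iff.1 h)
    obtain ⟨i, j, hij, r, hri, hrj⟩ :=
      exists_compatible (fun x : (f ⁻¹' {z} : Set X) => g x.1)
    have hi : r ∈ meets (R i.1 z) := by
      have h := hgR i.1
      rw [show f i.1 = z from i.2] at h
      exact down_meets _ _ h _ hri
    have hj : r ∈ meets (R j.1 z) := by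
      have h := hgR j.1
      rw [show f j.1 = z from j.2] at h
      exact down_meets _ _ h _ hrj
    obtain ⟨_, _, h'⟩ := mem_fimp.1 (hR2 i.1 j.1 z) r (hri.trans (hg _)) ⟨hi, hj⟩
    exact hij (Subtype.ext h')

/-- A subset of `ω` of full size is infinite. -/
theorem exists_mem_ge {B : ℕ → Set (RandomForcing Λ)}
    {p : RandomForcing Λ} (hp : p ∈ HasFullSize B) (m : ℕ) :
    ∃ r ≤ p, ∃ n, m ≤ n ∧ r ∈ meets (B n) := by
  obtain ⟨q, hq, R, hR1, hR2, hR3⟩ := mem_fex.1 hp p le_rfl
  by_contra hcon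
  push Not at hcon
  -- decide the values of the injection at `0, ..., m` one after the other
  have hdec : ∀ k : ℕ, ∃ r ≤ q, ∃ f : ℕ → ℕ, ∀ i < k, r ∈ meets (R i (f i)) ∧ r ∈ meets (B (f i)) := by
    intro k
    induction k with
    | zero => exact ⟨q, le_rfl, id, fun i hi => absurd hi (Nat.not_lt_zero i)⟩
    | succ k ih =>
      obtain ⟨r, hr, f, hf⟩ := ih
      obtain ⟨r1, hr1, y, hy⟩ := mem_fex.1 (hR1.1 k) r hr
      obtain ⟨r2, hr2, h2⟩ := mem_fimp.1 (hR3 k y) r1 (hr1.trans hr) hy
      refine ⟨r2, hr2.trans (hr1.trans hr), Function.update f k y, fun i hi => ?_⟩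
      rcases Nat.lt_succ_iff_lt_or_eq.1 hi with hi' | rfl
      · rw [Function.update_of_ne hi'.ne]
        exact ⟨down_meets _ _ (hf i hi').1 _ (hr2.trans hr1),
          down_meets _ _ (hf i hi').2 _ (hr2.trans hr1)⟩
      · rw [Function.update_self]
        exact ⟨down_meets _ _ hy _ hr2, h2⟩
  obtain ⟨r, hr, f, hf⟩ := hdec (m + 1)
  have hlt : ∀ i ∈ Finset.range (m + 1), f i ∈ Finset.range m := by
    intro i hi
    by_contra hge
    exact hcon r (hr.trans hq) (f i) (not_lt.1 fun h => hge (Finset.mem_range.2 h))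
      (hf i (Finset.mem_range.1 hi)).2
  obtain ⟨i, hi, j, hj, hij, hfij⟩ :=
    Finset.exists_ne_map_eq_of_card_lt_of_maps_to (by simp) hlt
  have hi' := (hf i (Finset.mem_range.1 hi)).1
  have hj' := (hf j (Finset.mem_range.1 hj)).1
  rw [← hfij] at hj'
  obtain ⟨_, _, h'⟩ := mem_fimp.1 (hR2 i j (f i)) r hr ⟨hi', hj'⟩
  exact hij h'

/-- The name of the colouring: the colour of `(x, n)` is the `n`-th bit of the random real with
index `e x`. -/
def randomColouring {X : Type v} (e : X → Λ) : X → ℕ → Set (RandomForcing Λ) :=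
  fun x n => {s | s.1 ⊆ {ω | ω (e x, n) = true}}

theorem randomColouring_true {X : Type v} {e : X → Λ} {x : X} {n : ℕ} {p : RandomForcing Λ}
    (hp : p ∈ meets (randomColouring e x n)) :
    productMeasure Λ (p.1 ∩ {ω | ω (e x, n) = false}) = 0 := by
  by_contra hne
  have hm : MeasurableSet (p.1 ∩ {ω | ω (e x, n) = false}) :=
    p.2.1.inter (measurableSet_coord _ _)
  obtain ⟨r, hr, s, hs, hrs⟩ := hp (cond _ hm hne) (cond_le.2 fun x hx => hx.1)
  apply r.2.2
  have : r.1 = ∅ := by
    ext ω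
    simp only [Set.mem_empty_iff_false, iff_false]
    intro hω
    have h1 : ω (e x, n) = false := (hr hω).2
    have h2 : ω (e x, n) = true := hs (hrs hω)
    rw [h1] at h2
    exact Bool.false_ne_true h2
  rw [this, measure_empty]

theorem randomColouring_false {X : Type v} {e : X → Λ} {x : X} {n : ℕ} {p : RandomForcing Λ}
    (hp : p ∈ fnot (meets (randomColouring e x n))) :
    productMeasure Λ (p.1 ∩ {ω | ω (e x, n) = true}) = 0 := by
  by_contra hne
  have hm : MeasurableSet (p.1 ∩ {ω | ω (e x, n) = true}) :=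
    p.2.1.inter (measurableSet_coord _ _)
  refine hp (cond _ hm hne) (cond_le.2 fun x hx => hx.1) (meets_of_le (s := cond _ hm hne) ?_ le_rfl)
  exact fun ω hω => hω.2

/-- The strong polarized relation fails for every uncountable set that injects into `Λ`. -/
theorem not_polarized {X : Type v} [Uncountable X] (e : X → Λ) (he : Function.Injective e)
    (p : RandomForcing Λ) : p ∈ fnot (Polarized (RandomForcing Λ) X ℕ) := by
  intro q hq hpol
  obtain ⟨q1, hq1, A, hA⟩ := mem_fex.1 (hpol (randomColouring e)) q le_rfl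
  obtain ⟨q2, hq2, B, hAsize, hBsize, hhom⟩ := mem_fex.1 hA q1 le_rfl
  choose M hM hMB using fun n => exists_truth (B n)
  choose C hC hCM using fun n => exists_countable_coordSpace (M n) (hM n)
  set C' : Set (Λ × ℕ) := ⋃ n, C n with hC'
  have hC'c : C'.Countable := Set.countable_iUnion hC
  have hMC' : ∀ n, MeasurableSet[coordSpace C'] (M n) :=
    fun n => coordSpace_mono (Set.subset_iUnion C n) _ (hCM n)
  -- the set of indices which are seen by the name `B`
  have hZ : (e ⁻¹' (Prod.fst '' C')).Countable :=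
    (hC'c.image Prod.fst).preimage he
  obtain ⟨q3, hq3, x, hx, hxA⟩ := exists_mem_not_countable hAsize _ hZ
  have hxC : ∀ n, (e x, n) ∉ C' := fun n hn => hx ⟨(e x, n), hn, rfl⟩
  -- almost every point of `q3` belongs to infinitely many of the `M n`
  have hinf : productMeasure Λ (q3.1 \ {ω | ∀ m, ∃ n, m ≤ n ∧ ω ∈ M n}) = 0 := by
    have h1 : q3.1 \ {ω | ∀ m, ∃ n, m ≤ n ∧ ω ∈ M n} ⊆
        ⋃ m, q3.1 \ ⋃ n, ⋃ _ : m ≤ n, M n := by
      rintro ω ⟨hω, hω'⟩
      simp only [Set.mem_ofPred_eq, not_forall] at hω'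
      obtain ⟨m, hm⟩ := hω'
      refine Set.mem_iUnion.2 ⟨m, hω, fun h => hm ?_⟩
      simp only [Set.mem_iUnion] at h
      obtain ⟨n, hn, h⟩ := h
      exact ⟨n, hn, h⟩
    refine measure_mono_null h1 (measure_iUnion_null fun m => ?_)
    by_contra hne
    have hm : MeasurableSet (q3.1 \ ⋃ n, ⋃ _ : m ≤ n, M n) :=
      q3.2.1.diff (MeasurableSet.iUnion fun n => MeasurableSet.iUnion fun _ => hM n)
    set r : RandomForcing Λ := cond _ hm hne with hr
    have hrq : r ≤ q3 := cond_le.2 fun x hx => hx.1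
    obtain ⟨s, hs, n, hmn, hsn⟩ :=
      exists_mem_ge (down_fex _ _ hBsize _ (hrq.trans hq3)) m
    have h2 := (hMB n s).1 hsn
    apply pos_of_diff_null h2
    have : s.1 ∩ M n = ∅ := by
      ext ω
      simp only [Set.mem_inter_iff, Set.mem_empty_iff_false, iff_false, not_and]
      intro hω hω'
      exact (hs hω).2 (Set.mem_iUnion.2 ⟨n, Set.mem_iUnion.2 ⟨hmn, hω'⟩⟩)
    rw [this, measure_empty]
  -- it remains to contradict homogeneity
  have main : ∀ b : Bool, ∀ s ≤ q3,
      (∀ n, productMeasure Λ (s.1 ∩ (M n ∩ {ω | ω (e x, n) = !b})) = 0) → False := by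
    intro b s hs hn
    apply s.2.2
    have hsub : s.1 ⊆ (q3.1 \ {ω | ∀ m, ∃ n, m ≤ n ∧ ω ∈ M n}) ∪
        ((⋃ n, s.1 ∩ (M n ∩ {ω | ω (e x, n) = !b})) ∪
        {ω | (∀ m, ∃ n, m ≤ n ∧ ω ∈ M n) ∧ ∀ n, ω ∈ M n → ω (e x, n) = b}) := by
      intro ω hω
      by_cases h1 : ∀ m, ∃ n, m ≤ n ∧ ω ∈ M n
      · right
        by_cases h2 : ∀ n, ω ∈ M n → ω (e x, n) = b
        · exact Or.inr ⟨h1, h2⟩
        · left
          push Not at h2
          obtain ⟨n, hn1, hn2⟩ := h2
          refine Set.mem_iUnion.2 ⟨n, hω, hn1, ?_⟩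
          exact Bool.eq_not_of_ne hn2
      · exact Or.inl ⟨hs hω, h1⟩
    exact measure_mono_null hsub (measure_union_null hinf (measure_union_null
      (measure_iUnion_null hn) (null_of_infinite M hMC' (e x) hxC b)))
  obtain ⟨q4, hq4, h4⟩ := mem_for.1 hhom q3 hq3
  have hxA4 : q4 ∈ meets (A x) := down_meets _ _ hxA _ hq4
  rcases h4 with h4 | h4
  · refine main true q4 hq4 fun n => ?_
    by_contra hne
    have hm : MeasurableSet (q4.1 ∩ (M n ∩ {ω | ω (e x, n) = !true})) :=
      q4.2.1.inter ((hM n).inter (measurableSet_coord _ _))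
    set r : RandomForcing Λ := cond _ hm hne with hr
    have hrq : r ≤ q4 := cond_le.2 fun x hx => hx.1
    have hrB : r ∈ meets (B n) := by
      refine (hMB n r).2 ?_
      have : r.1 \ M n = ∅ := by
        ext ω; simp only [Set.mem_empty_iff_false, iff_false]
        rintro ⟨h1, h2⟩; exact h2 h1.2.1
      rw [this, measure_empty]
    obtain ⟨t, ht, h5⟩ := mem_fimp.1 (h4 x n) r hrq ⟨down_meets _ _ hxA4 _ hrq, hrB⟩
    apply t.2.2
    refine measure_mono_null ?_ (randomColouring_true h5)
    exact fun ω hω => ⟨hω, (ht hω).2.2⟩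
  · refine main false q4 hq4 fun n => ?_
    by_contra hne
    have hm : MeasurableSet (q4.1 ∩ (M n ∩ {ω | ω (e x, n) = !false})) :=
      q4.2.1.inter ((hM n).inter (measurableSet_coord _ _))
    set r : RandomForcing Λ := cond _ hm hne with hr
    have hrq : r ≤ q4 := cond_le.2 fun x hx => hx.1
    have hrB : r ∈ meets (B n) := by
      refine (hMB n r).2 ?_
      have : r.1 \ M n = ∅ := by
        ext ω; simp only [Set.mem_empty_iff_false, iff_false]
        rintro ⟨h1, h2⟩; exact h2 h1.2.1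
      rw [this, measure_empty]
    obtain ⟨t, ht, h5⟩ := mem_fimp.1 (h4 x n) r hrq ⟨down_meets _ _ hxA4 _ hrq, hrB⟩
    apply t.2.2
    refine measure_mono_null ?_ (randomColouring_false h5)
    exact fun ω hω => ⟨hω, (ht hω).2.2⟩

end Random

/-! ## Part 6: the dominating number is not changed -/

section Dominating

variable {Λ : Type u}

/-- Below a condition forcing that `F` is a function, the values of `F` can be bounded by a
function of the ground model, off a set of arbitrarily small measure. -/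
theorem exists_bound {F : ℕ → ℕ → Set (RandomForcing Λ)} {q : RandomForcing Λ}
    (hq : q ∈ IsFun F) (ε : ENNReal) (hε : ε ≠ 0) :
    ∃ (h : ℕ → ℕ) (S : Set (Λ × ℕ → Bool)), MeasurableSet S ∧ S ⊆ q.1 ∧
      productMeasure Λ (q.1 \ S) ≤ ε ∧
      ∀ s : RandomForcing Λ, s.1 ⊆ S → ∀ n a, s ∈ meets (F n a) → a ≤ h n := by
  choose M hM hMF using fun n a => exists_truth (F n a)
  obtain ⟨δ, hδ0, hδ⟩ := ENNReal.exists_pos_sum_of_countable hε ℕ
  have hnull : ∀ n, productMeasure Λ (q.1 \ ⋃ a, M n a) = 0 := by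
    intro n
    by_contra hne
    have hm : MeasurableSet (q.1 \ ⋃ a, M n a) := q.2.1.diff (MeasurableSet.iUnion (hM n))
    obtain ⟨r, hr, a, ha⟩ := mem_fex.1 (hq.1 n) (cond _ hm hne) (cond_le.2 fun x hx => hx.1)
    apply pos_of_diff_null ((hMF n a r).1 ha)
    have : r.1 ∩ M n a = ∅ := by
      ext ω
      simp only [Set.mem_inter_iff, Set.mem_empty_iff_false, iff_false, not_and]
      intro hω hω'
      exact (hr hω).2 (Set.mem_iUnion.2 ⟨a, hω'⟩)
    rw [this, measure_empty]
  have hk : ∀ n, ∃ k, productMeasure Λ (q.1 \ ⋃ a, ⋃ _ : a ≤ k, M n a) ≤ δ n := by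
    intro n
    have hanti : Antitone fun k => q.1 \ ⋃ a, ⋃ _ : a ≤ k, M n a := by
      intro k k' hkk' ω hω
      refine ⟨hω.1, fun h => hω.2 ?_⟩
      simp only [Set.mem_iUnion] at h ⊢
      obtain ⟨a, ha, h⟩ := h
      exact ⟨a, ha.trans hkk', h⟩
    have hmeas : ∀ k, MeasurableSet (q.1 \ ⋃ a, ⋃ _ : a ≤ k, M n a) := fun k =>
      q.2.1.diff (MeasurableSet.iUnion fun a => MeasurableSet.iUnion fun _ => hM n a)
    have hlim := tendsto_measure_iInter_atTop (μ := productMeasure Λ)
      (fun k => (hmeas k).nullMeasurableSet) hanti ⟨0, measure_ne_top _ _⟩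
    have hinter : (⋂ k, q.1 \ ⋃ a, ⋃ _ : a ≤ k, M n a) = q.1 \ ⋃ a, M n a := by
      ext ω
      simp only [Set.mem_iInter, Set.mem_sdiff, Set.mem_iUnion, not_exists]
      constructor
      · intro h
        exact ⟨(h 0).1, fun a ha => (h a).2 a le_rfl ha⟩
      · rintro ⟨h1, h2⟩ k
        exact ⟨h1, fun a _ ha => h2 a ha⟩
    rw [hinter, hnull n] at hlim
    have hev := hlim.eventually_le_const (u := (δ n : ENNReal))
      (by exact_mod_cast hδ0 n)
    exact hev.exists
  choose h hh using hk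
  refine ⟨h, q.1 ∩ ⋂ n, ⋃ a, ⋃ _ : a ≤ h n, M n a, ?_, Set.inter_subset_left, ?_, ?_⟩
  · exact q.2.1.inter (MeasurableSet.iInter fun n => MeasurableSet.iUnion fun a =>
      MeasurableSet.iUnion fun _ => hM n a)
  · have hsub : q.1 \ (q.1 ∩ ⋂ n, ⋃ a, ⋃ _ : a ≤ h n, M n a) ⊆
        ⋃ n, q.1 \ ⋃ a, ⋃ _ : a ≤ h n, M n a := by
      rintro ω ⟨hω, hω'⟩
      have : ω ∉ ⋂ n, ⋃ a, ⋃ _ : a ≤ h n, M n a := fun h' => hω' ⟨hω, h'⟩
      rw [Set.mem_iInter] at this
      push Not at this
      obtain ⟨n, hn⟩ := this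
      exact Set.mem_iUnion.2 ⟨n, hω, hn⟩
    calc productMeasure Λ (q.1 \ (q.1 ∩ ⋂ n, ⋃ a, ⋃ _ : a ≤ h n, M n a))
        ≤ productMeasure Λ (⋃ n, q.1 \ ⋃ a, ⋃ _ : a ≤ h n, M n a) := measure_mono hsub
      _ ≤ ∑' n, productMeasure Λ (q.1 \ ⋃ a, ⋃ _ : a ≤ h n, M n a) := measure_iUnion_le _
      _ ≤ ∑' n, (δ n : ENNReal) := ENNReal.tsum_le_tsum hh
      _ ≤ ε := hδ.le
  · intro s hs n a ha
    by_contra hlt
    have h1 := pos_of_diff_null ((hMF n a s).1 ha)
    have h2 : s.1 ∩ M n a = ⋃ b, ⋃ _ : b ≤ h n, (s.1 ∩ M n a ∩ M n b) := by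
      ext ω
      simp only [Set.mem_iUnion, Set.mem_inter_iff]
      constructor
      · rintro ⟨hω, hω'⟩
        have h3 := Set.mem_iInter.1 (hs hω).2 n
        simp only [Set.mem_iUnion] at h3
        obtain ⟨b, hb, h3⟩ := h3
        exact ⟨b, hb, ⟨hω, hω'⟩, h3⟩
      · rintro ⟨b, -, h3, -⟩
        exact h3
    apply h1
    rw [h2]
    refine measure_iUnion_null fun b => measure_iUnion_null fun hb => ?_
    by_contra hne
    have hm : MeasurableSet (s.1 ∩ M n a ∩ M n b) := (s.2.1.inter (hM n a)).inter (hM n b)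
    have hr : (cond _ hm hne) ≤ q := cond_le.2 fun ω hω => (hs hω.1.1).1
    have ha' : (cond _ hm hne) ∈ meets (F n a) := by
      refine (hMF n a _).2 ?_
      have : (cond _ hm hne).1 \ M n a = ∅ := by
        ext ω; simp only [Set.mem_empty_iff_false, iff_false]
        rintro ⟨h1, h2⟩; exact h2 h1.1.2
      rw [this, measure_empty]
    have hb' : (cond _ hm hne) ∈ meets (F n b) := by
      refine (hMF n b _).2 ?_
      have : (cond _ hm hne).1 \ M n b = ∅ := by
        ext ω; simp only [Set.mem_empty_iff_false, iff_false]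
        rintro ⟨h1, h2⟩; exact h2 h1.2
      rw [this, measure_empty]
    obtain ⟨_, _, h'⟩ := mem_fimp.1 (hq.2 n a b) _ hr ⟨ha', hb'⟩
    have h'' : a = b := h'
    omega

/-- The name of a function of the ground model. -/
def checkFun (h : ℕ → ℕ) : ℕ → ℕ → Set (RandomForcing Λ) := fun n a => {_s | h n = a}

theorem meets_checkFun {h : ℕ → ℕ} {n a : ℕ} {p : RandomForcing Λ} :
    p ∈ meets (checkFun h n a) ↔ h n = a := by
  constructor
  · intro hp
    obtain ⟨_, _, s, hs, _⟩ := hp p le_rfl
    exact hs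
  · intro h'
    exact meets_of_le (s := p) h' le_rfl

theorem isFun_checkFun (h : ℕ → ℕ) (p : RandomForcing Λ) : p ∈ IsFun (checkFun h) := by
  refine ⟨fun n => mem_fex_of_mem (h n) (down_meets _) (meets_checkFun.2 rfl), fun n a b => ?_⟩
  rw [mem_fimp]
  rintro q _ ⟨ha, hb⟩
  exact ⟨q, le_rfl, (meets_checkFun.1 ha).symm.trans (meets_checkFun.1 hb)⟩

/-- A dominating family of the ground model stays dominating. -/
theorem hasDominatingFamily {Y : Type v} (D : Y → ℕ → ℕ)
    (hD : ∀ f : ℕ → ℕ, ∃ y, ∃ m, ∀ n, m ≤ n → f n ≤ D y n) (p : RandomForcing Λ) :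
    p ∈ HasDominatingFamily (RandomForcing Λ) Y := by
  rw [HasDominatingFamily, mem_fex]
  intro p' _
  refine ⟨p', le_rfl, fun y => checkFun (D y), fun y => isFun_checkFun _ _, fun F => ?_⟩
  rw [mem_fimp]
  intro q _ hqF
  -- bound `F` by a ground model function on a condition below `q`
  obtain ⟨h, S, hS, hSq, hμ, hbd⟩ := exists_bound hqF (productMeasure Λ q.1 / 2)
    (by simp [q.2.2])
  have hne : productMeasure Λ S ≠ 0 := by
    intro h0
    have h1 : productMeasure Λ q.1 ≤ productMeasure Λ q.1 / 2 := by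
      calc productMeasure Λ q.1 ≤ productMeasure Λ ((q.1 \ S) ∪ S) :=
            measure_mono fun ω hω => by
              by_cases hωS : ω ∈ S
              · exact Or.inr hωS
              · exact Or.inl ⟨hω, hωS⟩
        _ ≤ productMeasure Λ (q.1 \ S) + productMeasure Λ S := measure_union_le _ _
        _ ≤ productMeasure Λ q.1 / 2 := by rw [h0, add_zero]; exact hμ
    exact absurd h1 (not_le.2 (ENNReal.half_lt_self q.2.2 (measure_ne_top _ _)))
  obtain ⟨y, m, hy⟩ := hD h
  refine ⟨cond S hS hne, cond_le.2 hSq, mem_fex_of_mem y (down_LeStar _ _) ?_⟩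
  refine mem_fex_of_mem m (down_fall fun _ => down_fall fun _ => down_fall fun _ =>
    down_fall fun _ => down_fimp _ _) ?_
  intro n hmn a b
  rw [mem_fimp]
  rintro s hs ⟨ha, hb⟩
  refine ⟨s, le_rfl, ?_⟩
  have h1 : a ≤ h n := hbd s hs n a ha
  have h2 : D y n = b := meets_checkFun.1 hb
  show a ≤ b
  rw [← h2]
  exact h1.trans (hy n hmn)

/-- No small family of the generic extension is dominating. -/
theorem not_hasDominatingFamily {Y : Type v}
    (hY : ∀ D : Y → ℕ → ℕ, ∃ f : ℕ → ℕ, ∀ y, ∀ m, ∃ n, m ≤ n ∧ D y n < f n)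
    (p : RandomForcing Λ) : p ∈ fnot (HasDominatingFamily (RandomForcing Λ) Y) := by
  intro p' _ hdom
  obtain ⟨q, _, D, hDf, hD⟩ := mem_fex.1 hdom p' le_rfl
  choose h S hS hSq hμ hbd using fun (y : Y) (k : ℕ) =>
    exists_bound (hDf y) ((2⁻¹ : ENNReal) ^ k) (pow_ne_zero _ (by simp))
  let g : Y → ℕ → ℕ := fun y n => (Finset.range (n + 1)).sup fun k => h y k n
  obtain ⟨f, hf⟩ := hY g
  obtain ⟨r, hr, y, hy⟩ := mem_fex.1 (mem_fimp.1 (hD (checkFun f)) q le_rfl
    (isFun_checkFun f q)).choose_spec.2 _ le_rfl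
  have hrq : r ≤ q := hr.trans (mem_fimp.1 (hD (checkFun f)) q le_rfl
    (isFun_checkFun f q)).choose_spec.1
  obtain ⟨r1, hr1, m, hm⟩ := mem_fex.1 hy r le_rfl
  have hr1q : r1 ≤ q := hr1.trans hrq
  -- choose `k` such that `S y k` meets `r1` in positive measure
  have hk : ∃ k, productMeasure Λ (r1.1 ∩ S y k) ≠ 0 := by
    by_contra hcon
    push Not at hcon
    apply r1.2.2
    have hle : ∀ k, productMeasure Λ r1.1 ≤ (2⁻¹ : ENNReal) ^ k := by
      intro k
      calc productMeasure Λ r1.1 ≤ productMeasure Λ ((r1.1 ∩ S y k) ∪ (q.1 \ S y k)) :=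
            measure_mono fun ω hω => by
              by_cases hωS : ω ∈ S y k
              · exact Or.inl ⟨hω, hωS⟩
              · exact Or.inr ⟨hr1q hω, hωS⟩
        _ ≤ productMeasure Λ (r1.1 ∩ S y k) + productMeasure Λ (q.1 \ S y k) :=
            measure_union_le _ _
        _ ≤ (2⁻¹ : ENNReal) ^ k := by rw [hcon k, zero_add]; exact hμ y k
    have hlim : Filter.Tendsto (fun k : ℕ => (2⁻¹ : ENNReal) ^ k) Filter.atTop (nhds 0) :=
      ENNReal.tendsto_pow_atTop_nhds_zero_of_lt_one (ENNReal.inv_lt_one.2 (by norm_num))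
    exact le_antisymm (ge_of_tendsto' hlim hle) bot_le
  obtain ⟨k, hk⟩ := hk
  have hsm : MeasurableSet (r1.1 ∩ S y k) := r1.2.1.inter (hS y k)
  obtain ⟨n, hn, hlt⟩ := hf y (max m k)
  -- decide the value of the `y`-th function at `n`
  obtain ⟨t, ht, b, hb⟩ := mem_fex.1 ((hDf y).1 n) (cond _ hsm hk)
    (cond_le.2 fun ω hω => hr1q hω.1)
  have htr1 : t ≤ r1 := ht.trans (cond_le.2 fun ω hω => hω.1)
  have h1 : b ≤ h y k n := hbd y k t (fun ω hω => (ht hω).2) n b hb
  have h2 : h y k n ≤ g y n :=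
    Finset.le_sup (f := fun k => h y k n)
      (Finset.mem_range.2 (Nat.lt_succ_of_le ((le_max_right m k).trans hn)))
  obtain ⟨_, _, h3⟩ := mem_fimp.1 (hm n ((le_max_left m k).trans hn) (f n) b) t htr1
    ⟨meets_checkFun.2 rfl, hb⟩
  have h3' : f n ≤ b := h3
  omega

theorem dominatingNumber_spec :
    ∃ D : Set (ℕ → ℕ), #D = dominatingNumber ∧
      ∀ f : ℕ → ℕ, ∃ g ∈ D, ∃ m, ∀ n, m ≤ n → f n ≤ g n :=
  csInf_mem (s := {κ | ∃ D : Set (ℕ → ℕ), #D = κ ∧
    ∀ f : ℕ → ℕ, ∃ g ∈ D, ∃ m, ∀ n, m ≤ n → f n ≤ g n})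
    ⟨#(Set.univ : Set (ℕ → ℕ)), Set.univ, rfl, fun f => ⟨f, Set.mem_univ f, 0, fun _ _ => le_rfl⟩⟩

/-- The dominating number is uncountable. -/
theorem aleph0_lt_dominatingNumber : ℵ₀ < dominatingNumber := by
  obtain ⟨D, hD, hdom⟩ := dominatingNumber_spec
  rw [← hD, ← not_le]
  intro hle
  have hc : D.Countable := (Cardinal.le_aleph0_iff_set_countable).1 hle
  obtain ⟨g0, hg0, -⟩ := hdom fun _ => 0
  obtain ⟨e, he⟩ := hc.exists_eq_range ⟨g0, hg0⟩
  obtain ⟨g, hg, m, hm⟩ := hdom fun n => ((Finset.range (n + 1)).sup fun k => e k n) + 1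
  rw [he] at hg
  obtain ⟨k, rfl⟩ := hg
  have h1 := hm (max m k) (le_max_left _ _)
  have h2 : e k (max m k) ≤ (Finset.range (max m k + 1)).sup fun j => e j (max m k) :=
    Finset.le_sup (f := fun j => e j (max m k))
      (Finset.mem_range.2 (Nat.lt_succ_of_le (le_max_right m k)))
  omega

theorem dominatingNumberIs (p : RandomForcing Λ) :
    p ∈ DominatingNumberIs (RandomForcing Λ) dominatingNumber := by
  constructor
  · obtain ⟨D, hD, hdom⟩ := dominatingNumber_spec
    have he : #(dominatingNumber.out) = #D := by rw [mk_out, hD]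
    obtain ⟨e⟩ := Cardinal.eq.1 he
    refine hasDominatingFamily (fun y => (e y).1) (fun f => ?_) p
    obtain ⟨g, hg, m, hm⟩ := hdom f
    exact ⟨e.symm ⟨g, hg⟩, m, by simpa using hm⟩
  · intro μ hμ
    refine not_hasDominatingFamily (fun D => ?_) p
    by_contra hcon
    push Not at hcon
    have h1 : dominatingNumber ≤ #(Set.range D) := by
      refine csInf_le' ⟨Set.range D, rfl, fun f => ?_⟩
      obtain ⟨y, m, hm⟩ := hcon f
      exact ⟨D y, ⟨y, rfl⟩, m, hm⟩
    have h2 : #(Set.range D) ≤ μ := by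
      have := Cardinal.mk_range_le (f := D)
      rwa [mk_out] at this
    exact absurd hμ (not_lt.2 (h1.trans h2))

end Dominating

/-- **Main theorem.** If `Λ` has more than `𝔡` elements then after adding `Λ` many random reals
the dominating number is still `𝔡`, and the strong polarized relation `(𝔡, ω) → (𝔡, ω)` for two
colours fails. -/
theorem result (Λ : Type u) (hΛ : Cardinal.lift.{u} dominatingNumber < #Λ) :
    (∀ p : RandomForcing Λ, p ∈ DominatingNumberIs (RandomForcing Λ) dominatingNumber) ∧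
    (∀ p : RandomForcing Λ, p ∈ fnot (Polarized (RandomForcing Λ) dominatingNumber.out ℕ)) := by
  refine ⟨dominatingNumberIs, fun p => ?_⟩
  have : Uncountable dominatingNumber.out := by
    rw [← Cardinal.aleph0_lt_mk_iff, mk_out]; exact aleph0_lt_dominatingNumber
  have h1 : Cardinal.lift.{u} #(dominatingNumber.out) ≤ Cardinal.lift.{0} #Λ := by
    rw [mk_out, Cardinal.lift_uzero]; exact hΛ.le
  obtain ⟨e⟩ := Cardinal.lift_mk_le'.1 h1
  exact not_polarized e e.injective p

end Pool.Agent.Results.MP_95a70f_lc.RandomReals
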